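import Pool.Agent.N662.FP.Stm2

/-!
# Project FL part 2 (helper662), part SYMZ (helper340): symmetry of the time constant
-/

set_option autoImplicit false
open MeasureTheory ProbabilityTheory Filter Set
open scoped ENNReal Pointwise Topology

namespace Pool.Agent.N340.FM

open Pool.Agent.N662.FP

lemma aesm (h3 : S_AE) (h4 : S_ME) (Ω : Type) [MeasureSpace Ω]
    (X : Sym2 (ℤ × ℤ) → Ω → ℝ) (hX : Iid X) (v w : ℤ × ℤ) :
    AEStronglyMeasurable (fun ω => D (env X ω) v w) (volume : Measure Ω) := by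
  have hm : Measurable (fun ω => D (fun e => max (env X ω e) 0) v w) := by
    have h1 : Measurable (fun ω => env X ω) := measurable_pi_lambda _ (fun e => hX.meas e)
    exact (h4 v w).comp h1
  refine ⟨fun ω => D (fun e => max (env X ω e) 0) v w, hm.stronglyMeasurable, ?_⟩
  filter_upwards [h3 Ω X hX] with ω hω
  have : env X ω = fun e => max (env X ω e) 0 := by
    funext e
    rw [max_eq_left (hω e)]
  conv_lhs => rw [this]

/-- abstract form -/
lemma key (Ω : Type) [MeasureSpace Ω] [IsProbabilityMeasure (volume : Measure Ω)]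
    (F G : ℕ → Ω → ℝ) (hF : ∀ n, AEStronglyMeasurable (F n) (volume : Measure Ω))
    (hG : ∀ n, AEStronglyMeasurable (G n) (volume : Measure Ω)) (a b : ℝ)
    (ha : ∀ᵐ ω ∂(volume : Measure Ω), Tendsto (fun n => F n ω) atTop (𝓝 a))
    (hb : ∀ᵐ ω ∂(volume : Measure Ω), Tendsto (fun n => G n ω) atTop (𝓝 b))
    (h : ∀ s : ℝ, ∀ n, 1 ≤ n → (volume : Measure Ω).real {ω | s ≤ F n ω} =
      (volume : Measure Ω).real {ω | s ≤ G n ω}) : ¬ a < b := by
  intro hab
  have h1 := tendstoInMeasure_of_tendsto_ae (g := fun _ => a) hF ha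
  have h2 := tendstoInMeasure_of_tendsto_ae (g := fun _ => b) hG hb
  rw [tendstoInMeasure_iff_norm] at h1 h2
  have hε : 0 < (b - a) / 2 := by linarith
  have h1' := h1 _ hε
  have h2' := h2 _ hε
  have h3 : Tendsto (fun n => (volume : Measure Ω).real {ω | (b - a) / 2 ≤ ‖F n ω - a‖} +
      (volume : Measure Ω).real {ω | (b - a) / 2 ≤ ‖G n ω - b‖}) atTop (𝓝 (0 + 0)) := by
    refine Tendsto.add ?_ ?_
    · exact (ENNReal.tendsto_toReal ENNReal.zero_ne_top).comp h1'
    · exact (ENNReal.tendsto_toReal ENNReal.zero_ne_top).comp h2'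
  rw [add_zero] at h3
  have h4 : ∀ᶠ n in atTop, (1 : ℝ) ≤ (volume : Measure Ω).real {ω | (b - a) / 2 ≤ ‖F n ω - a‖} +
      (volume : Measure Ω).real {ω | (b - a) / 2 ≤ ‖G n ω - b‖} := by
    filter_upwards [eventually_ge_atTop 1] with n hn
    have e1 : (1 : ℝ) ≤ (volume : Measure Ω).real {ω | (a + b) / 2 ≤ G n ω} +
        (volume : Measure Ω).real {ω | G n ω < (a + b) / 2} := by
      have : (volume : Measure Ω).real ({ω | (a + b) / 2 ≤ G n ω} ∪ {ω | G n ω < (a + b) / 2}) = 1 := by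
        have hu : ({ω | (a + b) / 2 ≤ G n ω} ∪ {ω | G n ω < (a + b) / 2}) = Set.univ := by
          ext ω
          simp only [mem_union, mem_ofPred_eq, mem_univ, iff_true]
          exact le_or_gt _ _
        rw [hu]
        exact probReal_univ
      rw [← this]
      exact measureReal_union_le _ _
    rw [← h _ n hn] at e1
    have e2 : (volume : Measure Ω).real {ω | (a + b) / 2 ≤ F n ω} ≤
        (volume : Measure Ω).real {ω | (b - a) / 2 ≤ ‖F n ω - a‖} := by
      refine measureReal_mono ?_ (measure_ne_top _ _)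
      intro ω hω
      simp only [mem_ofPred_eq, Real.norm_eq_abs] at hω ⊢
      refine le_trans ?_ (le_abs_self _)
      linarith
    have e3 : (volume : Measure Ω).real {ω | G n ω < (a + b) / 2} ≤
        (volume : Measure Ω).real {ω | (b - a) / 2 ≤ ‖G n ω - b‖} := by
      refine measureReal_mono ?_ (measure_ne_top _ _)
      intro ω hω
      simp only [mem_ofPred_eq, Real.norm_eq_abs] at hω ⊢
      refine le_trans ?_ (neg_le_abs _)
      linarith
    linarith
  have h5 := ge_of_tendsto h3 h4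
  linarith

theorem t_SYMZ (h1 : S_TIL) (h2 : S_REV) (h3 : S_AE) (h4 : S_ME) : S_SYMZ := by
  intro Ω _ _ X hX z a b ha hb
  have hm : ∀ (w : ℤ × ℤ) (n : ℕ), AEStronglyMeasurable
      (fun ω => D (env X ω) 0 ((n : ℤ) • w) / (n : ℝ)) (volume : Measure Ω) := by
    intro w n
    simp only [div_eq_mul_inv]
    exact (aesm h3 h4 Ω X hX 0 _).mul aestronglyMeasurable_const
  have hP : ∀ s : ℝ, ∀ n : ℕ, 1 ≤ n →
      (volume : Measure Ω).real {ω | s ≤ D (env X ω) 0 ((n : ℤ) • z) / (n : ℝ)} =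
      (volume : Measure Ω).real {ω | s ≤ D (env X ω) 0 ((n : ℤ) • (-z)) / (n : ℝ)} := by
    intro s n hn
    have hn0 : (0 : ℝ) < n := by exact_mod_cast hn
    have e1 : ∀ w : ℤ × ℤ, {ω | s ≤ D (env X ω) 0 w / (n : ℝ)} =
        {ω | s * n ≤ D (env X ω) 0 w} := by
      intro w
      ext ω
      simp only [mem_ofPred_eq]
      rw [le_div_iff₀ hn0]
    rw [e1, e1]
    have e2 : {ω | s * n ≤ D (env X ω) 0 ((n : ℤ) • (-z))} =
        {ω | s * n ≤ D (env X ω) ((n : ℤ) • (-z)) ((n : ℤ) • (-z) + (n : ℤ) • z)} := by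
      ext ω
      simp only [mem_ofPred_eq]
      rw [h2 (env X ω) 0, smul_neg, neg_add_cancel]
    rw [e2]
    exact (h1 Ω X hX _ _ _).symm
  apply le_antisymm
  · by_contra hlt
    exact key Ω _ _ (hm (-z)) (hm z) b a hb ha (fun s n hn => (hP s n hn).symm) (not_le.mp hlt)
  · by_contra hlt
    exact key Ω _ _ (hm z) (hm (-z)) a b ha hb hP (not_le.mp hlt)

end Pool.Agent.N340.FM
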